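import Pool.Agent.H53.GM.Targets2
import Pool.Agent.H58.CT.Final

/-!
# Cyclic families
-/

set_option autoImplicit false

namespace Pool.Agent.H99.GM

open Pool.Agent.H68.BP Pool.Agent.H58.SF Pool.Agent.H53.GC Pool.Agent.H53.GR Pool.Agent.H53.GM
open Classical

section cyc

variable {X 𝓛 : Type} {N k : ℕ} (R : 𝓛 → (So N k → X) → Prop) (I : Finset (Fin k))

/-- projections are idempotent families -/
theorem cyc_pr {J : Type} (i : J) : FmI R I J (fun _ w => w i) where
  fam _ _ h := h.1 i
  idem _ _ := rfl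

/-- compositions of idempotent families -/
theorem cyc_comp {J J' : Type} {F : So N k → (J → X) → X} {G : J → So N k → (J' → X) → X}
    (hF : FmI R I J F) (hG : ∀ i, FmI R I J' (G i)) :
    FmI R I J' (fun e w => F e (fun i => G i e w)) where
  fam l p h := by
    refine hF.fam l (fun i e => G i e (fun j => p j e)) ⟨fun i => (hG i).fam l p h, ?_⟩
    intro e he i i'
    change G i e (fun j => p j e) = G i' e (fun j => p j e)
    by_cases hJ : Nonempty J'
    · obtain ⟨j₀⟩ := hJ
      have h1 : (fun j => p j e) = fun _ => p j₀ e := funext fun j => h.2 e he j j₀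
      rw [h1, (hG i).idem, (hG i').idem]
    · have h1 : (fun j => p j e) = fun _ => G i e (fun j => p j e) :=
        funext fun j => absurd ⟨j⟩ hJ
      have h2 := (hG i').idem e (G i e (fun j => p j e))
      rw [← h1] at h2
      exact h2.symm
  idem e t := by
    have h1 : (fun i => G i e (fun _ => t)) = fun _ => t := funext fun i => (hG i).idem e t
    change F e (fun i => G i e (fun _ => t)) = t
    rw [h1]
    exact hF.idem e t

/-- the clone of the idempotent families -/
def cycC : Pool.Agent.H58.CT.Cln where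
  T J := {F : So N k → (J → X) → X // FmI R I J F}
  pr i := ⟨fun _ w => w i, cyc_pr R I i⟩
  comp F G := ⟨fun e w => F.1 e (fun i => (G i).1 e w), cyc_comp R I F.2 (fun i => (G i).2)⟩

variable (l₀ : 𝓛)

/-- the patterns in `l₀` which agree with `P` at the sorts which do not contain `I` strictly -/
def cycA (P : {P : So N k → X // R l₀ P}) : Type :=
  {Q : So N k → X // R l₀ Q ∧ ∀ e : So N k, ¬ I ⊂ e.1 → Q e = P.1 e}

theorem cyc_vt {P : {P : So N k → X // R l₀ P}} {J : Type} (x : J → cycA R I l₀ P) :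
    VT R l₀ I (fun i => (x i).1) :=
  ⟨fun i => (x i).2.1, fun e he i i' => ((x i).2.2 e he).trans ((x i').2.2 e he).symm⟩

instance cycAlg (P : {P : So N k → X // R l₀ P}) :
    Pool.Agent.H58.CT.Alg (cycC R I) (cycA R I l₀ P) where
  int t x := ⟨fun e => t.1 e (fun i => (x i).1 e), t.2.fam l₀ _ (cyc_vt R I l₀ x), by
    intro e he
    have h1 : (fun i => (x i).1 e) = fun _ => P.1 e := funext fun i => (x i).2.2 e he
    change t.1 e (fun i => (x i).1 e) = P.1 e
    rw [h1]
    exact t.2.idem e _⟩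
  int_pr _ _ := rfl
  int_comp _ _ _ := rfl
  idem t a := Subtype.ext (funext fun e => t.2.idem e (a.1 e))

end cyc

theorem pf_CYC : Pool.Agent.H53.GM.T_CYC := by
  intro X 𝓛 _ N k R l₀ rd I hB hno p _ hp
  have hfin : Finite (So N k → X) := inferInstance
  have hfA : ∀ P, Finite (cycA R I l₀ P) := fun P => by
    unfold cycA
    infer_instance
  have hcard : ∀ P, Nat.card (cycA R I l₀ P) < p := by
    intro P
    refine lt_of_le_of_lt ?_ hp
    exact Nat.card_le_card_of_injective (fun Q : cycA R I l₀ P => Q.1) Subtype.val_injective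
  have hNP : Pool.Agent.H58.CT.NoPrjOn (cycC R I) (cycA R I l₀) := by
    rintro ⟨ι', h1, h2, h3⟩
    refine hno ⟨fun J _ _ F => if h : FmI R I J F then ι' J ⟨F, h⟩ else Classical.arbitrary J,
      ?_, ?_, ?_⟩
    · intro J _ _ i
      rw [dif_pos (cyc_pr R I i)]
      exact h1 J i
    · intro J J' _ _ _ _ F G hF hG
      rw [dif_pos (cyc_comp R I hF hG), dif_pos hF, dif_pos (hG _)]
      exact h2 J J' ⟨F, hF⟩ (fun i => ⟨G i, hG i⟩)
    · intro J _ _ F G hF hG hFG
      rw [dif_pos hF, dif_pos hG]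
      refine h3 J ⟨F, hF⟩ ⟨G, hG⟩ ?_
      intro P x
      exact Subtype.ext (funext fun e => hFG e _ (cyc_vt R I l₀ x))
  obtain ⟨t, ht⟩ := Pool.Agent.H58.CT.cyclic_terms (cycC R I) {P : So N k → X // R l₀ P}
    (cycA R I l₀) p hNP hcard
  refine ⟨t.1, t.2, ?_⟩
  intro x hx e
  have h := ht ⟨x 0, hx.1 0⟩ (fun i => ⟨x i, hx.1 i, fun e he => hx.2 e he i 0⟩)
  exact congrFun (congrArg Subtype.val h) e

end Pool.Agent.H99.GM
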