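import Pool.Agent.H53.GM.Targets2

/-!
# The labels of a configuration
-/

set_option autoImplicit false

namespace Pool.Agent.H99.GM

open Pool.Agent.H68.BP Pool.Agent.H58.SF Pool.Agent.H53.GC Pool.Agent.H53.GR Pool.Agent.H53.GM
open Classical

theorem lbk_vr {k L : ℕ} (lb : Fin k → Rg L) (e : Finset (Fin k)) : vr (pts lb e) = e := by
  ext v
  constructor
  · intro h
    obtain ⟨x, hx, rfl⟩ := Finset.mem_image.1 h
    obtain ⟨w, hw, rfl⟩ := Finset.mem_image.1 hx
    exact hw
  · intro h
    exact Finset.mem_image.2 ⟨(v, lb v), Finset.mem_image.2 ⟨v, h, rfl⟩, rfl⟩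

theorem pf_LBK : Pool.Agent.H53.GM.T_LBK := by
  intro τ N k L F I a₀ r lb p hp e he c
  rcases e.eq_empty_or_nonempty with h0 | h0
  · subst h0
    have h1 : pts lb ∅ = ∅ := rfl
    have h2 : ¬ hasS (pts lb ∅) := by
      rintro ⟨v, hv⟩
      rw [h1] at hv
      exact absurd hv (Finset.notMem_empty _)
    have h3 : kd I a₀ r lb p ∅ = (fun _ => a₀, fun _ => a₀) := by
      unfold kd rsG
      rw [if_pos h1]
    unfold labK
    rw [if_neg h2, h3, Finset.empty_union]
    exact (hp.mx c).2.symm
  · have h1 : pts lb e ≠ ∅ := by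
      obtain ⟨v, hv⟩ := h0
      intro h
      have : (v, lb v) ∈ pts lb e := Finset.mem_image.2 ⟨v, hv, rfl⟩
      rw [h] at this
      exact absurd this (Finset.notMem_empty _)
    have h2 := lbk_vr lb e
    by_cases hS : hasS (pts lb e)
    · obtain ⟨v, hv⟩ := id hS
      obtain ⟨w, hw, hw'⟩ := Finset.mem_image.1 hv
      have hwl : lb w = some none := (Prod.mk.inj hw').2
      have hZ : ¬ AZ (pts lb e) := by
        intro h
        have h5 := h.2 _ hv
        simp at h5
      have hwI : w ∉ I := fun h => (Finset.disjoint_left.1 he) hw h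
      have h6 : ∀ d, (kd I a₀ r lb p e).2 d = rse (e ∪ I) (p (ix r d)) := by
        intro d
        unfold kd rsG
        rw [if_neg h1]
        change (if AZ (pts lb e) then fun _ => ∅ else fun d => rse (vr (pts lb e) ∪ I) (p (ix r d)) :
          Fin 2 → Ty τ N (Fin k)) d = _
        rw [if_neg hZ, h2]
      unfold labK
      rw [if_pos hS, h6, h6]
      rcases hp.bin with h | ⟨P, P', h⟩
      · rw [h w hwI] at hwl
        exact absurd hwl (by simp)
      · rw [h, (pat_ix r P P').1, (pat_ix r P P').2]
        exact (pat_map (fun t => rse (e ∪ I) t) r P P' c).symm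
    · have hA : ¬ AS (pts lb e) := by
        intro h
        obtain ⟨x, hx⟩ := h.1
        exact hS ⟨x.1, by
          have := h.2 x hx
          rw [← this]
          exact hx⟩
      unfold labK
      rw [if_neg hS]
      unfold kd rsG
      rw [if_neg h1]
      change (if AS (pts lb e) then fun _ => ∅ else fun c => rse (vr (pts lb e) ∪ I) (p c) :
          Fin 6 → Ty τ N (Fin k)) c = _
      rw [if_neg hA, h2]

end Pool.Agent.H99.GM
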