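import Pool.Agent.H53.GM.Targets2

/-!
# Precoloured problems: colours can be forced
-/

set_option autoImplicit false

namespace Pool.Agent.H99.GM

open Pool.Agent.H68.BP Pool.Agent.H58.SF Pool.Agent.H53.GC Pool.Agent.H53.GR Pool.Agent.H53.GM
open Classical

theorem pf_PRE : Pool.Agent.H53.GM.T_PRE := by
  intro τ σ N F Al hPre n M hM
  refine ⟨n, fun l z => ∃ c, (∀ c', Al l c' ↔ c' = c) ∧
    ∃ h : τ.ar c = σ.ar l, M c (fun i => z (Fin.cast h i)), id, Function.injective_id,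
    ⟨M, hM, ?_, ?_⟩, ?_⟩
  · rintro l z ⟨c, hc, h, hz⟩
    exact ⟨c, (hc c).2 rfl, h, hz⟩
  · intro l z hz
    exact hz
  · intro M' hM' hC c z hz
    obtain ⟨l, hl, hc⟩ := hPre c
    obtain ⟨c', hc', h', hz'⟩ := hC l (fun i => z (Fin.cast hl.symm i)) ⟨c, hc, hl, hz⟩
    have := (hc c').1 hc'
    subst this
    exact hz'

end Pool.Agent.H99.GM
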